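import Pool.Agent.Q127.Sep.Defs

/-!
# The gap between the adaptable and the separation choice numbers of complete uniform hypergraphs

For the complete `r`-uniform hypergraph on `n` vertices, `r ≥ 3`, the separation choice number is at
most `√n + 2` by Hall's theorem, and the adaptable choice number is at least `n ^ (4 / 7)` for
suitable `n` by a random colouring of the edges.
-/

set_option autoImplicit false
set_option linter.unusedSectionVars false

namespace Q127.Gap

open Finset Filter Q127.Sep

/-- The complete `r`-uniform hypergraph on `n` vertices. -/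
def complete (n r : ℕ) : Finset (Finset (Fin n)) := (univ : Finset (Fin n)).powersetCard r

theorem uniform_complete (n r : ℕ) : Uniform r (complete n r) := fun _ he =>
  (mem_powersetCard.1 he).2

/-- Separated lists of size at least `k` on at most `k² - k + 1` vertices have a system of
distinct representatives. -/
theorem sdr_of_separated {V : Type*} [Fintype V] [DecidableEq V] (k : ℕ) (hk : 1 ≤ k)
    (hn : Fintype.card V ≤ k * k - k + 1) (L₀ : V → Finset ℕ) (hL₀ : ∀ v, k ≤ (L₀ v).card)
    (hsep₀ : ∀ u v, u ≠ v → (L₀ u ∩ L₀ v).card ≤ 1) :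
    ∃ φ : V → ℕ, Function.Injective φ ∧ ∀ v, φ v ∈ L₀ v := by
  classical
  choose L hLL₀ hL using fun v => exists_subset_card_eq (hL₀ v)
  have hsep : ∀ u v, u ≠ v → (L u ∩ L v).card ≤ 1 := fun u v huv =>
    le_trans (card_le_card (inter_subset_inter (hLL₀ u) (hLL₀ v))) (hsep₀ u v huv)
  have hall : ∀ S : Finset V, S.card ≤ (S.biUnion L).card := by
    intro S
    by_contra hcon
    push Not at hcon
    set K := S.biUnion L with hK
    set d : ℕ → ℕ := fun c => (S.filter (fun v => c ∈ L v)).card with hd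
    have h1 : ∑ c ∈ K, d c = S.card * k := by
      have e1 : ∀ v ∈ S, ∑ c ∈ K, (if c ∈ L v then 1 else 0) = k := by
        intro v hv
        rw [← sum_filter, ← card_eq_sum_ones, ← hL v]
        congr 1
        ext c
        rw [mem_filter]
        exact ⟨fun h => h.2, fun h => ⟨mem_biUnion.2 ⟨v, hv, h⟩, h⟩⟩
      calc ∑ c ∈ K, d c = ∑ c ∈ K, ∑ v ∈ S, (if c ∈ L v then 1 else 0) := by
            refine sum_congr rfl (fun c _ => ?_)
            rw [hd, ← sum_filter, ← card_eq_sum_ones]
        _ = ∑ v ∈ S, ∑ c ∈ K, (if c ∈ L v then 1 else 0) := sum_comm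
        _ = ∑ v ∈ S, k := sum_congr rfl e1
        _ = S.card * k := by rw [sum_const, smul_eq_mul]
    have h2 : ∑ c ∈ K, d c * d c ≤ S.card * k + S.card * (S.card - 1) := by
      have e1 : ∀ c ∈ K, d c * d c = d c + (S.filter (fun v => c ∈ L v)).offDiag.card := by
        intro c _
        rw [offDiag_card]
        have : d c ≤ d c * d c := Nat.le_mul_self _
        simp only [hd] at this ⊢
        omega
      rw [sum_congr rfl e1, sum_add_distrib, h1]
      refine Nat.add_le_add_left ?_ _
      calc ∑ c ∈ K, (S.filter (fun v => c ∈ L v)).offDiag.card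
          = ∑ c ∈ K, ∑ p ∈ S.offDiag, (if c ∈ L p.1 ∩ L p.2 then 1 else 0) := by
            refine sum_congr rfl (fun c _ => ?_)
            rw [← sum_filter, ← card_eq_sum_ones]
            congr 1
            ext p
            simp only [mem_filter, mem_offDiag, mem_inter]
            tauto
        _ = ∑ p ∈ S.offDiag, ∑ c ∈ K, (if c ∈ L p.1 ∩ L p.2 then 1 else 0) := sum_comm
        _ ≤ ∑ p ∈ S.offDiag, 1 := by
            refine sum_le_sum (fun p hp => ?_)
            rw [← sum_filter, ← card_eq_sum_ones]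
            rw [mem_offDiag] at hp
            refine le_trans (card_le_card ?_) (hsep p.1 p.2 hp.2.2)
            intro c hc
            exact (mem_filter.1 hc).2
        _ = S.card * (S.card - 1) := by
            rw [← card_eq_sum_ones, offDiag_card, Nat.mul_sub, mul_one]
    have h3 : (∑ c ∈ K, d c) ^ 2 ≤ K.card * ∑ c ∈ K, d c ^ 2 := sq_sum_le_card_mul_sum_sq
    have h3' : ∑ c ∈ K, d c ^ 2 = ∑ c ∈ K, d c * d c := sum_congr rfl (fun c _ => sq _)
    rw [h1, h3'] at h3
    set s := S.card with hs
    have hs0 : 0 < s := by omega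
    obtain ⟨s', hs'⟩ : ∃ s', s = s' + 1 := ⟨s - 1, by omega⟩
    have hsn : s ≤ k * k - k + 1 := le_trans (card_le_univ S) hn
    have h4 : (s * k) ^ 2 ≤ s' * (s * k + s * s') := by
      refine le_trans h3 (Nat.mul_le_mul (by omega) ?_)
      rw [hs', Nat.add_sub_cancel] at h2
      rw [hs']
      exact h2
    have h5 : s * k * k ≤ s' * (k + s') := by
      refine Nat.le_of_mul_le_mul_left (?_ : s * (s * k * k) ≤ s * (s' * (k + s'))) hs0
      calc s * (s * k * k) = (s * k) ^ 2 := by ring
        _ ≤ s' * (s * k + s * s') := h4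
        _ = s * (s' * (k + s')) := by ring
    have h6 : s' ≤ k * k - k := by omega
    have h7 : k ≤ k * k := Nat.le_mul_self k
    have h8 : s' + k ≤ k * k := by omega
    have h9 : s' * (k + s') ≤ s' * (k * k) := Nat.mul_le_mul_left _ (by omega)
    have h10 : s * k * k = s' * (k * k) + k * k := by rw [hs']; ring
    have h11 : 0 < k * k := Nat.mul_pos hk hk
    omega
  obtain ⟨φ, h1, h2⟩ := (all_card_le_biUnion_card_iff_exists_injective L).1 hall
  exact ⟨φ, h1, fun v => hLL₀ v (h2 v)⟩

theorem chSep_complete_le (n r k : ℕ) (hr : 2 ≤ r) (hrn : r ≤ n) (hk : 1 ≤ k)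
    (hn : n ≤ k * k - k + 1) : chSep (complete n r) ≤ k := by
  classical
  refine Nat.sInf_le ?_
  intro L hL hsep
  obtain ⟨φ, h1, h2⟩ := sdr_of_separated k hk (by simpa using hn) L hL (by
    intro u v huv
    obtain ⟨e, he1, he2, he3⟩ := exists_subsuperset_card_eq
      (s := ({u, v} : Finset (Fin n))) (t := univ) (n := r) (subset_univ _)
      (by rw [card_pair huv]; exact hr) (by simpa using hrn)
    refine hsep e (mem_powersetCard.2 ⟨he2, he3⟩) u (he1 (by simp)) v (he1 (by simp)) huv)
  refine ⟨φ, h2, ?_⟩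
  rintro e he ⟨c, hc⟩
  have hcard := (mem_powersetCard.1 he).2
  obtain ⟨u, hu, v, hv, huv⟩ := one_lt_card.1 (by omega : 1 < e.card)
  exact huv (h1 ((hc u hu).trans (hc v hv).symm))

/-- A random colouring of the edges of the complete `r`-uniform hypergraph with `t` colours: every
set of `m` vertices contains edges of all colours. -/
theorem exists_edge_colouring (n r t m : ℕ) (ht : 0 < t)
    (hbig : (n : ℝ) ^ m * t * Real.exp (-((m.choose r : ℝ) / t)) < 1) :
    ∃ f : Finset (Fin n) → ℕ, ∀ S : Finset (Fin n), S.card = m → ∀ i < t,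
      ∃ e ∈ complete n r, e ⊆ S ∧ f e = i := by
  classical
  set X := complete n r with hX
  set F := {e // e ∈ X} → Fin t with hF
  -- the bad colourings
  set bad : Finset (Fin n) → Fin t → Finset F := fun S i =>
    Fintype.piFinset (fun e : {e // e ∈ X} => if e.1 ⊆ S then univ.erase i else univ) with hbad
  have hcardF : Fintype.card F = t ^ X.card := by simp [hF]
  have htR : (0 : ℝ) < t := by exact_mod_cast ht
  have hcard : ∀ S : Finset (Fin n), S.card = m → ∀ i : Fin t,
      ((bad S i).card : ℝ) ≤ (t : ℝ) ^ X.card * Real.exp (-((m.choose r : ℝ) / t)) := by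
    intro S hS i
    have hsubs : (univ.filter (fun e : {e // e ∈ X} => e.1 ⊆ S)).card = m.choose r := by
      rw [← hS, ← card_powersetCard]
      refine card_bij (fun e _ => e.1) ?_ ?_ ?_
      · intro e he
        rw [mem_powersetCard]
        exact ⟨(mem_filter.1 he).2, (mem_powersetCard.1 e.2).2⟩
      · intro e _ e' _ h
        exact Subtype.ext h
      · intro e he
        rw [mem_powersetCard] at he
        exact ⟨⟨e, mem_powersetCard.2 ⟨subset_univ _, he.2⟩⟩, mem_filter.2 ⟨mem_univ _, he.1⟩, rfl⟩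
    have h1 : (bad S i).card = (t - 1) ^ (m.choose r) * t ^ (X.card - m.choose r) := by
      rw [hbad, Fintype.card_piFinset]
      have e1 : ∀ e : {e // e ∈ X},
          (if e.1 ⊆ S then (univ : Finset (Fin t)).erase i else univ).card =
            if e.1 ⊆ S then t - 1 else t := by
        intro e
        split_ifs
        · rw [card_erase_of_mem (mem_univ _), card_univ, Fintype.card_fin]
        · rw [card_univ, Fintype.card_fin]
      rw [prod_congr rfl (fun e _ => e1 e), prod_ite, prod_const, prod_const, hsubs]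
      congr 2
      have h2 := card_filter_add_card_filter_not (s := (univ : Finset {e // e ∈ X}))
        (fun e => e.1 ⊆ S)
      rw [hsubs, card_univ, Fintype.card_coe] at h2
      omega
    have hle : m.choose r ≤ X.card := by
      rw [← hsubs]
      refine le_trans (card_le_univ _) ?_
      rw [Fintype.card_coe]
    rw [h1]
    push_cast [Nat.cast_sub ht]
    have h3 : ((t : ℝ) - 1) ^ (m.choose r) ≤
        (t : ℝ) ^ (m.choose r) * Real.exp (-((m.choose r : ℝ) / t)) := by
      have e2 : (t : ℝ) - 1 ≤ t * Real.exp (-(1 / t)) := by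
        have h4 := Real.add_one_le_exp (-(1 / (t : ℝ)))
        have h5 : (t : ℝ) * (-(1 / t) + 1) = t - 1 := by
          field_simp
          ring
        rw [← h5]
        exact mul_le_mul_of_nonneg_left h4 htR.le
      have e3 : (0 : ℝ) ≤ (t : ℝ) - 1 := by
        have : (1 : ℝ) ≤ t := by exact_mod_cast ht
        linarith
      calc ((t : ℝ) - 1) ^ (m.choose r) ≤ (t * Real.exp (-(1 / t))) ^ (m.choose r) :=
            pow_le_pow_left₀ e3 e2 _
        _ = (t : ℝ) ^ (m.choose r) * Real.exp (-((m.choose r : ℝ) / t)) := by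
            rw [mul_pow, ← Real.exp_nat_mul]
            congr 2
            ring
    calc ((t : ℝ) - 1) ^ (m.choose r) * (t : ℝ) ^ (X.card - m.choose r)
        ≤ ((t : ℝ) ^ (m.choose r) * Real.exp (-((m.choose r : ℝ) / t))) *
          (t : ℝ) ^ (X.card - m.choose r) := mul_le_mul_of_nonneg_right h3 (by positivity)
      _ = ((t : ℝ) ^ (m.choose r) * (t : ℝ) ^ (X.card - m.choose r)) *
          Real.exp (-((m.choose r : ℝ) / t)) := by ring
      _ = _ := by rw [← pow_add, Nat.add_sub_cancel' hle]
  -- some colouring is not bad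
  have hex : ∃ f : F, ∀ S : Finset (Fin n), S.card = m → ∀ i : Fin t, f ∉ bad S i := by
    by_contra hcon
    push Not at hcon
    have hsub : (univ : Finset F) ⊆ ((univ : Finset (Fin n)).powersetCard m).biUnion
        (fun S => (univ : Finset (Fin t)).biUnion (fun i => bad S i)) := by
      intro f _
      obtain ⟨S, hS, i, hi⟩ := hcon f
      rw [mem_biUnion]
      refine ⟨S, mem_powersetCard.2 ⟨subset_univ _, hS⟩, ?_⟩
      rw [mem_biUnion]
      exact ⟨i, mem_univ _, hi⟩
    have h1 : (Fintype.card F : ℝ) ≤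
        ∑ S ∈ (univ : Finset (Fin n)).powersetCard m, ∑ i : Fin t, ((bad S i).card : ℝ) := by
      have := le_trans (card_le_card hsub) (le_trans card_biUnion_le
        (sum_le_sum (fun S _ => card_biUnion_le)))
      rw [card_univ] at this
      exact_mod_cast this
    have h2 : ∑ S ∈ (univ : Finset (Fin n)).powersetCard m, ∑ i : Fin t, ((bad S i).card : ℝ) ≤
        ((n.choose m : ℕ) : ℝ) * (t * ((t : ℝ) ^ X.card * Real.exp (-((m.choose r : ℝ) / t)))) := by
      have e1 : ∀ S ∈ (univ : Finset (Fin n)).powersetCard m,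
          ∑ i : Fin t, ((bad S i).card : ℝ) ≤
            t * ((t : ℝ) ^ X.card * Real.exp (-((m.choose r : ℝ) / t))) := by
        intro S hS
        refine le_trans (sum_le_sum (fun i _ => hcard S (mem_powersetCard.1 hS).2 i)) ?_
        rw [sum_const, card_univ, Fintype.card_fin, nsmul_eq_mul]
      refine le_trans (sum_le_sum e1) ?_
      rw [sum_const, card_powersetCard, card_univ, Fintype.card_fin, nsmul_eq_mul]
    have h3 : ((n.choose m : ℕ) : ℝ) ≤ (n : ℝ) ^ m := by
      exact_mod_cast Nat.choose_le_pow n m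
    rw [hcardF] at h1
    push_cast at h1
    have hpos : (0 : ℝ) < (t : ℝ) ^ X.card := by positivity
    have h4 : (t : ℝ) ^ X.card ≤ (n : ℝ) ^ m *
        (t * ((t : ℝ) ^ X.card * Real.exp (-((m.choose r : ℝ) / t)))) := by
      refine le_trans h1 (le_trans h2 (mul_le_mul_of_nonneg_right h3 (by positivity)))
    have h5 : (n : ℝ) ^ m * (t * ((t : ℝ) ^ X.card * Real.exp (-((m.choose r : ℝ) / t)))) =
        (t : ℝ) ^ X.card * ((n : ℝ) ^ m * t * Real.exp (-((m.choose r : ℝ) / t))) := by ring
    rw [h5] at h4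
    nlinarith
  obtain ⟨f, hf⟩ := hex
  refine ⟨fun e => if h : e ∈ X then (f ⟨e, h⟩ : ℕ) else 0, fun S hS i hi => ?_⟩
  have h1 := hf S hS ⟨i, hi⟩
  rw [hbad, Fintype.mem_piFinset] at h1
  push Not at h1
  obtain ⟨e, he⟩ := h1
  split_ifs at he with heS
  · refine ⟨e.1, e.2, heS, ?_⟩
    dsimp only
    rw [dif_pos e.2]
    have : f e = ⟨i, hi⟩ := by
      by_contra hne
      exact he (mem_erase.2 ⟨hne, mem_univ _⟩)
    rw [this]
  · exact absurd (mem_univ _) he

theorem le_chAd_complete (n r t m : ℕ) (hr : 2 ≤ r) (ht : 0 < t) (hn : t * m ≤ n)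
    (hbig : (n : ℝ) ^ m * t * Real.exp (-((m.choose r : ℝ) / t)) < 1) :
    t + 1 ≤ chAd (complete n r) := by
  classical
  unfold chAd
  apply le_csInf
  · -- lists of size `n` suffice
    refine ⟨n, fun L hL f => ?_⟩
    have hall : ∀ S : Finset (Fin n), S.card ≤ (S.biUnion L).card := by
      intro S
      rcases S.eq_empty_or_nonempty with rfl | ⟨v, hv⟩
      · simp
      · have h1 : S.card ≤ n := by simpa using card_le_univ S
        exact le_trans h1 (le_trans (hL v) (card_le_card (subset_biUnion_of_mem L hv)))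
    obtain ⟨φ, h1, h2⟩ := (all_card_le_biUnion_card_iff_exists_injective L).1 hall
    refine ⟨φ, h2, fun e he hmono => ?_⟩
    have hcard := (mem_powersetCard.1 he).2
    obtain ⟨u, hu, v, hv, huv⟩ := one_lt_card.1 (by omega : 1 < e.card)
    exact huv (h1 ((hmono u hu).trans (hmono v hv).symm))
  · intro k hk
    by_contra hcon
    push Not at hcon
    obtain ⟨f, hf⟩ := exists_edge_colouring n r t m ht hbig
    obtain ⟨φ, h1, h2⟩ := hk (fun _ => range t) (fun _ => by rw [card_range]; omega) f
    -- a popular colour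
    have hpig : ∃ i ∈ range t, m ≤ ((univ : Finset (Fin n)).filter (fun v => φ v = i)).card := by
      by_contra hno
      push Not at hno
      have h3 : ∑ i ∈ range t, ((univ : Finset (Fin n)).filter (fun v => φ v = i)).card = n := by
        have := card_eq_sum_card_fiberwise (s := (univ : Finset (Fin n))) (t := range t)
          (f := φ) (fun v _ => h1 v)
        rw [card_univ, Fintype.card_fin] at this
        exact this.symm
      have h4 : ∑ i ∈ range t, ((univ : Finset (Fin n)).filter (fun v => φ v = i)).card <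
          ∑ i ∈ range t, m :=
        sum_lt_sum_of_nonempty (by rw [nonempty_range_iff]; omega) (fun i hi => hno i hi)
      rw [h3, sum_const, card_range, smul_eq_mul] at h4
      omega
    obtain ⟨i, hi, hpop⟩ := hpig
    obtain ⟨S, hS, hSm⟩ := exists_subset_card_eq hpop
    obtain ⟨e, he, heS, hfe⟩ := hf S hSm i (mem_range.1 hi)
    refine h2 e he (fun v hv => ?_)
    rw [hfe]
    exact (mem_filter.1 (hS (heS hv))).2

theorem gap (r k : ℕ) (hr : 3 ≤ r) :
    ∃ (n : ℕ) (H : Finset (Finset (Fin n))), Uniform r H ∧ chSep H + k ≤ chAd H := by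
  -- a large parameter `u`
  obtain ⟨u, hu1, hu2⟩ : ∃ u : ℕ, r ^ r + k + 100 ≤ u ∧ (u : ℝ) ^ 24 < Real.exp u := by
    have h1 := (Real.tendsto_pow_mul_exp_neg_atTop_nhds_zero 24).comp tendsto_natCast_atTop_atTop
    have h2 := h1.eventually (gt_mem_nhds (show (0 : ℝ) < 1 by norm_num))
    obtain ⟨u, hu, hu'⟩ := (h2.and (eventually_ge_atTop (r ^ r + k + 100))).exists
    refine ⟨u, hu', ?_⟩
    simp only [Function.comp_apply] at hu
    rw [Real.exp_neg] at hu
    have h3 := Real.exp_pos (u : ℝ)
    calc (u : ℝ) ^ 24 = ((u : ℝ) ^ 24 * (Real.exp u)⁻¹) * Real.exp u := by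
          rw [mul_assoc, inv_mul_cancel₀ h3.ne', mul_one]
      _ < 1 * Real.exp u := mul_lt_mul_of_pos_right hu h3
      _ = Real.exp u := one_mul _
  have hrr : r ≤ r ^ r := Nat.le_self_pow (by omega) r
  set m := u ^ 3 + (r - 1) with hm
  set t := u ^ 4 with ht
  set n := t * m with hn
  have hu0 : 0 < u := by omega
  have hm2 : m ≤ 2 * u ^ 3 := by
    have : r - 1 ≤ u ^ 3 := by
      calc r - 1 ≤ u := by omega
        _ ≤ u ^ 3 := Nat.le_self_pow (by norm_num) u
    omega
  have hn2 : n ≤ 2 * u ^ 7 := by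
    calc n = u ^ 4 * m := by rw [hn, ht]
      _ ≤ u ^ 4 * (2 * u ^ 3) := Nat.mul_le_mul_left _ hm2
      _ = 2 * u ^ 7 := by ring
  have hn8 : n ≤ u ^ 8 := by
    refine le_trans hn2 ?_
    calc 2 * u ^ 7 ≤ u * u ^ 7 := Nat.mul_le_mul_right _ (by omega)
      _ = u ^ 8 := by ring
  -- the number of edges in a set of `m` vertices
  have hchoose : u ^ 8 ≤ m.choose r := by
    have h1 : (m + 1 - r) ^ r ≤ r.factorial * m.choose r := by
      have h3 := Nat.pow_sub_le_descFactorial m r
      rw [← Nat.descFactorial_eq_factorial_mul_choose]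
      exact h3
    have h2 : m + 1 - r = u ^ 3 := by omega
    rw [h2] at h1
    have h3 : r.factorial ≤ u := le_trans (Nat.factorial_le_pow r) (by omega)
    have h4 : u * u ^ 8 ≤ u * m.choose r := by
      calc u * u ^ 8 = (u ^ 3) ^ 3 := by ring
        _ ≤ (u ^ 3) ^ r := Nat.pow_le_pow_right (by positivity) hr
        _ ≤ r.factorial * m.choose r := h1
        _ ≤ u * m.choose r := Nat.mul_le_mul_right _ h3
    exact Nat.le_of_mul_le_mul_left h4 hu0
  have huR : (0 : ℝ) < u := by exact_mod_cast hu0
  have huR1 : (1 : ℝ) ≤ u := by exact_mod_cast hu0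
  have hbig : (n : ℝ) ^ m * t * Real.exp (-((m.choose r : ℝ) / t)) < 1 := by
    have h1 : (n : ℝ) ^ m * t ≤ ((u : ℝ) ^ 24) ^ (u ^ 3) := by
      have e1 : (n : ℝ) ≤ (u : ℝ) ^ 8 := by exact_mod_cast hn8
      calc (n : ℝ) ^ m * t ≤ ((u : ℝ) ^ 8) ^ m * (u : ℝ) ^ 8 := by
            have e2 : (t : ℝ) ≤ (u : ℝ) ^ 8 := by
              rw [ht]; push_cast
              exact pow_le_pow_right₀ huR1 (by norm_num)
            exact mul_le_mul (pow_le_pow_left₀ (by positivity) e1 _) e2 (by positivity)
              (by positivity)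
        _ = (u : ℝ) ^ (8 * (m + 1)) := by rw [← pow_mul, ← pow_add]; ring_nf
        _ ≤ (u : ℝ) ^ (24 * u ^ 3) := by
            apply pow_le_pow_right₀ huR1
            have : 1 ≤ u ^ 3 := Nat.one_le_pow _ _ hu0
            omega
        _ = ((u : ℝ) ^ 24) ^ (u ^ 3) := by rw [← pow_mul]
    have h2 : Real.exp (-((m.choose r : ℝ) / t)) ≤ Real.exp (-((u : ℝ) ^ 4)) := by
      apply Real.exp_le_exp.2
      apply neg_le_neg
      rw [ht]
      push_cast
      rw [le_div_iff₀ (by positivity)]
      have : (u : ℝ) ^ 8 ≤ (m.choose r : ℝ) := by exact_mod_cast hchoose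
      calc (u : ℝ) ^ 4 * (u : ℝ) ^ 4 = (u : ℝ) ^ 8 := by ring
        _ ≤ _ := this
    have h3 : ((u : ℝ) ^ 24) ^ (u ^ 3) < (Real.exp u) ^ (u ^ 3) :=
      pow_lt_pow_left₀ hu2 (by positivity) (by positivity)
    have h4 : (Real.exp u) ^ (u ^ 3) = Real.exp ((u : ℝ) ^ 4) := by
      rw [← Real.exp_nat_mul]
      congr 1
      push_cast
      ring
    calc (n : ℝ) ^ m * t * Real.exp (-((m.choose r : ℝ) / t))
        ≤ ((u : ℝ) ^ 24) ^ (u ^ 3) * Real.exp (-((u : ℝ) ^ 4)) :=
          mul_le_mul h1 h2 (Real.exp_pos _).le (by positivity)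
      _ < Real.exp ((u : ℝ) ^ 4) * Real.exp (-((u : ℝ) ^ 4)) := by
          rw [← h4]
          exact mul_lt_mul_of_pos_right h3 (Real.exp_pos _)
      _ = 1 := by rw [← Real.exp_add]; simp
  refine ⟨n, complete n r, uniform_complete n r, ?_⟩
  have hm0 : 0 < m := by
    have : 0 < u ^ 3 := by positivity
    omega
  have hAd := le_chAd_complete n r t m (by omega) (by positivity) le_rfl hbig
  have hrn : r ≤ n := by
    have h1 : 1 ≤ t := Nat.one_le_pow _ _ hu0
    have h2 : r ≤ m := by
      have : 1 ≤ u ^ 3 := Nat.one_le_pow _ _ hu0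
      omega
    calc r ≤ m := h2
      _ = 1 * m := (one_mul m).symm
      _ ≤ t * m := Nat.mul_le_mul_right _ h1
  have hSep : chSep (complete n r) ≤ t - k := by
    apply chSep_complete_le n r (t - k) (by omega) hrn
    · have : u ≤ t := Nat.le_self_pow (by norm_num) u
      omega
    · -- `n ≤ (t - k) ^ 2 - (t - k) + 1`
      have hut : u ≤ t := Nat.le_self_pow (by norm_num) u
      have h1 : t ≤ 2 * (t - k) := by
        have h100 : 2 * k ≤ t := by
          calc 2 * k ≤ 2 * u := by omega
            _ ≤ u * u := Nat.mul_le_mul_right _ (by omega)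
            _ = u ^ 2 := (sq u).symm
            _ ≤ u ^ 4 := Nat.pow_le_pow_right hu0 (by norm_num)
        omega
      have h2 : t * t ≤ 4 * ((t - k) * (t - k)) := by
        calc t * t ≤ (2 * (t - k)) * (2 * (t - k)) := Nat.mul_le_mul h1 h1
          _ = 4 * ((t - k) * (t - k)) := by ring
      have h3 : t * t = u * u ^ 7 := by rw [ht]; ring
      have h4 : 100 * u ^ 7 ≤ u * u ^ 7 := Nat.mul_le_mul_right _ (by omega)
      have h5 : t - k ≤ t := Nat.sub_le _ _
      have h6 : t ≤ u ^ 7 := by rw [ht]; exact Nat.pow_le_pow_right hu0 (by norm_num)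
      omega
  have hut : u ≤ t := Nat.le_self_pow (by norm_num) u
  omega

end Q127.Gap
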